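import Pool.Agent.N348.HC.Mod
import Pool.Agent.N271.HC.M2

/-!
# The Bestvina-Brady group of an acyclic flag complex is of type FP (HC/FP3)
-/

set_option autoImplicit false

namespace Pool.Agent.N348.HC

open Pool.Agent.W326.DU Pool.Agent.Y66.HC Pool.Agent.N271.HC Pool.Agent.Helper158

section
variable {V : Type} [Fintype V] (ad : V → V → Prop)

/-- the ordered edges -/
def Ed : Type := {q : V × V // ad q.1 q.2 ∧ Fintype.equivFin V q.1 < Fintype.equivFin V q.2}

noncomputable instance : Fintype (Ed ad) := by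
  classical
  unfold Ed
  exact Fintype.ofFinite _

open Classical in
/-- the alternating function of a function on the ordered edges -/
noncomputable def alt (a b : V) : (Ed ad → CF ad {0}) →ₗ[ZG (BB ad)] MA ad :=
  if h : ad a b ∧ Fintype.equivFin V a < Fintype.equivFin V b then
    (CF ad {0}).subtype ∘ₗ LinearMap.proj ⟨(a, b), h⟩
  else if h : ad b a ∧ Fintype.equivFin V b < Fintype.equivFin V a then
    - ((CF ad {0}).subtype ∘ₗ LinearMap.proj ⟨(b, a), h⟩)
  else 0

theorem alt_lt (w : Ed ad → CF ad {0}) {a b : V}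
    (h : ad a b ∧ Fintype.equivFin V a < Fintype.equivFin V b) :
    alt ad a b w = w ⟨(a, b), h⟩ := by
  unfold alt
  rw [dif_pos h]
  rfl

theorem alt_gt (w : Ed ad → CF ad {0}) {a b : V}
    (h : ad b a ∧ Fintype.equivFin V b < Fintype.equivFin V a) :
    alt ad a b w = - (w ⟨(b, a), h⟩ : MA ad) := by
  unfold alt
  rw [dif_neg (fun h' => absurd (h.2.trans h'.2) (lt_irrefl _)), dif_pos h]
  rfl

theorem alt_none (hs : ∀ a b, ad a b → ad b a) (w : Ed ad → CF ad {0}) {a b : V}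
    (h : ¬ ad a b) : alt ad a b w = 0 := by
  unfold alt
  rw [dif_neg (fun h' => h h'.1), dif_neg (fun h' => h (hs _ _ h'.1))]
  rfl

theorem alt_mem (hs : ∀ a b, ad a b → ad b a) (hi : ∀ a, ¬ ad a a) (w : Ed ad → CF ad {0}) :
    (fun a b => alt ad a b w) ∈ A2 (ZG (RAAG ad)) ad := by
  refine ⟨fun a b => ?_, fun a b h => ?_⟩
  · beta_reduce
    by_cases h : ad a b
    · rcases lt_trichotomy (Fintype.equivFin V a) (Fintype.equivFin V b) with h1 | h1 | h1
      · rw [alt_lt ad w ⟨h, h1⟩, alt_gt ad w ⟨h, h1⟩, neg_neg]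
      · have := (Fintype.equivFin V).injective h1
        rw [this] at h
        exact absurd h (hi b)
      · rw [alt_lt ad w ⟨hs _ _ h, h1⟩, alt_gt ad w ⟨hs _ _ h, h1⟩]
    · rw [alt_none ad hs w h, alt_none ad hs w (fun h' => h (hs _ _ h')), neg_zero]
  · refine alt_none ad hs w (fun h' => h ⟨trivial, trivial, h'⟩)

theorem alt_CF (hs : ∀ a b, ad a b → ad b a) (hi : ∀ a, ¬ ad a a) (w : Ed ad → CF ad {0})
    (a b : V) : alt ad a b w ∈ CF ad {0} := by
  by_cases h : ad a b
  · rcases lt_trichotomy (Fintype.equivFin V a) (Fintype.equivFin V b) with h1 | h1 | h1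
    · rw [alt_lt ad w ⟨h, h1⟩]
      exact Subtype.mem _
    · have := (Fintype.equivFin V).injective h1
      rw [this] at h
      exact absurd h (hi b)
    · rw [alt_gt ad w ⟨hs _ _ h, h1⟩]
      exact neg_mem (Subtype.mem _)
  · rw [alt_none ad hs w h]
    exact zero_mem _

/-- every alternating function of height 0 is of this form -/
theorem exists_alt (hs : ∀ a b, ad a b → ad b a) (hi : ∀ a, ¬ ad a a)
    (y : V → V → ZG (RAAG ad)) (hy : y ∈ A2 (ZG (RAAG ad)) ad)
    (h0 : ∀ k, k ≠ 0 → ∀ a b, pz ad k (y a b) = 0) :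
    ∃ w : Ed ad → CF ad {0}, ∀ a b, alt ad a b w = y a b := by
  refine ⟨fun q => ⟨y q.1.1 q.1.2, fun k hk => h0 k (by simpa using hk) _ _⟩, fun a b => ?_⟩
  by_cases h : ad a b
  · rcases lt_trichotomy (Fintype.equivFin V a) (Fintype.equivFin V b) with h1 | h1 | h1
    · rw [alt_lt ad _ ⟨h, h1⟩]
    · have := (Fintype.equivFin V).injective h1
      rw [this] at h
      exact absurd h (hi b)
    · rw [alt_gt ad _ ⟨hs _ _ h, h1⟩, hy.1 a b]
  · rw [alt_none ad hs _ h, hy.2 a b (fun h' => h h'.2.2)]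

/-- the chains -/
abbrev Q0 : Type := CF ad {0, 1, 2}
/-- the chains -/
abbrev Q1 : Type := V → CF ad {0, 1}
/-- the chains -/
abbrev Q2 : Type := Ed ad → CF ad {0}

/-- the first differential of the slab -/
noncomputable def e1 (hi : ∀ a, ¬ ad a a) : Q1 ad →ₗ[ZG (BB ad)] Q0 ad :=
  LinearMap.codRestrict (CF ad {0, 1, 2})
    (∑ v, (Rl ad v) ∘ₗ (CF ad {0, 1}).subtype ∘ₗ (LinearMap.proj v)) (by
      intro x
      rw [LinearMap.sum_apply]
      exact sum_mem fun v _ => Rl_mem ad (by simp) (by simp) hi v (x v).2)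

theorem e1_apply (hi : ∀ a, ¬ ad a a) (x : Q1 ad) :
    ((e1 ad hi x : Q0 ad) : ZG (RAAG ad)) = D1 (fun v => rmg ad (gen ad v)) (fun v => (x v : ZG (RAAG ad))) := by
  change (∑ v, (Rl ad v) ∘ₗ (CF ad {0, 1}).subtype ∘ₗ (LinearMap.proj v) :
    Q1 ad →ₗ[ZG (BB ad)] MA ad) x = ∑ v, Rr (fun v => rmg ad (gen ad v)) v (x v : ZG (RAAG ad))
  rw [LinearMap.sum_apply]
  refine Finset.sum_congr rfl fun v _ => ?_
  rw [Rr_eq]
  rfl

/-- the second differential of the slab -/
noncomputable def e2 (hs : ∀ a b, ad a b → ad b a) (hi : ∀ a, ¬ ad a a) :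
    Q2 ad →ₗ[ZG (BB ad)] Q1 ad :=
  LinearMap.pi fun b => LinearMap.codRestrict (CF ad {0, 1})
    (∑ a, (Rl ad a) ∘ₗ alt ad a b) (by
      intro w
      rw [LinearMap.sum_apply]
      exact sum_mem fun v _ => Rl_mem ad (F := {0}) (by simp) (by simp) hi v
        (alt_CF ad hs hi w v b))

theorem e2_apply (hs : ∀ a b, ad a b → ad b a) (hi : ∀ a, ¬ ad a a) (w : Q2 ad) (b : V) :
    ((e2 ad hs hi w b : CF ad {0, 1}) : ZG (RAAG ad)) =
      D2 (fun v => rmg ad (gen ad v)) (fun a b => alt ad a b w) b := by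
  change (∑ a, (Rl ad a) ∘ₗ alt ad a b : Q2 ad →ₗ[ZG (BB ad)] MA ad) w =
    ∑ v, Rr (fun v => rmg ad (gen ad v)) v (alt ad v b w)
  rw [LinearMap.sum_apply]
  refine Finset.sum_congr rfl fun v _ => ?_
  rw [Rr_eq]
  rfl

/-- the augmentation -/
noncomputable def ee : Q0 ad →+ ℤ :=
  (augm (RAAG ad)).comp (CF ad {0, 1, 2}).subtype.toAddMonoidHom

theorem ee_apply (x : Q0 ad) : ee ad x = augm (RAAG ad) (x : ZG (RAAG ad)) := rfl

theorem augm_D1 (y : V → ZG (RAAG ad)) :
    augm (RAAG ad) (D1 (fun v => rmg ad (gen ad v)) y) = 0 := by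
  change augm (RAAG ad) (∑ v, Rr (fun v => rmg ad (gen ad v)) v (y v)) = 0
  rw [map_sum]
  refine Finset.sum_eq_zero fun v _ => ?_
  rw [Rr_eq]
  change augm (RAAG ad) (y v * (MonoidAlgebra.of ℤ (RAAG ad) (gen ad v) - 1)) = 0
  rw [Pool.Agent.Y448.HC.augm_mul, map_sub, Pool.Agent.Y448.HC.augm_of,
    Pool.Agent.Y448.HC.augm_one, sub_self, mul_zero]

theorem exists_D1 (x : ZG (RAAG ad)) (hx : augm (RAAG ad) x = 0) :
    ∃ y, D1 (fun v => rmg ad (gen ad v)) y = x := by
  classical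
  have h1 := aug_th (RAAG ad) (Set.range (gen ad)) (Pool.Agent.W490.DU.closure_gen ad) x hx
  rw [← Set.image_univ, ← mem_Im_iff] at h1
  have hle : Im (Rg ad) Set.univ ≤ (D1 (fun v => rmg ad (gen ad v))).range := by
    refine iSup_le fun v => iSup_le fun _ => ?_
    rintro _ ⟨z, rfl⟩
    refine ⟨Pi.single v z, ?_⟩
    change ∑ u, Rr (fun v => rmg ad (gen ad v)) u ((Pi.single v z : V → ZG (RAAG ad)) u) = _
    rw [Finset.sum_eq_single v]
    · rw [Pi.single_eq_same, Rr_eq]
    · intro u _ hu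
      rw [Pi.single_eq_of_ne hu, map_zero]
    · simp
  exact hle h1

variable (hs : ∀ a b, ad a b → ad b a) (hi : ∀ a, ¬ ad a a)
  (h4 : ∀ a b c d, ad a b → ad a c → ad a d → ad b c → ad b d → ¬ ad c d) (ac : Acyc ad)

theorem D2_eq (y : V → V → ZG (RAAG ad)) (b : V) :
    D2 (fun v => rmg ad (gen ad v)) y b = ∑ a, Rg ad a (y a b) := by
  change ∑ a, Rr (fun v => rmg ad (gen ad v)) a (y a b) = _
  exact Finset.sum_congr rfl fun a _ => by rw [Rr_eq]

theorem D1_eq (y : V → ZG (RAAG ad)) :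
    D1 (fun v => rmg ad (gen ad v)) y = ∑ a, Rg ad a (y a) := by
  change ∑ a, Rr (fun v => rmg ad (gen ad v)) a (y a) = _
  exact Finset.sum_congr rfl fun a _ => by rw [Rr_eq]

theorem D3_eq (y : V → V → V → ZG (RAAG ad)) (b c : V) :
    D3 (fun v => rmg ad (gen ad v)) y b c = ∑ a, Rg ad a (y a b c) := by
  change ∑ a, Rr (fun v => rmg ad (gen ad v)) a (y a b c) = _
  exact Finset.sum_congr rfl fun a _ => by rw [Rr_eq]

include hs ac in
theorem exact0 (x : Q0 ad) : ee ad x = 0 ↔ x ∈ LinearMap.range (e1 ad hi) := by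
  constructor
  · intro h
    obtain ⟨y, hy⟩ := exists_D1 ad x.1 h
    obtain ⟨y', h1, h2⟩ := (gr ad).slab0 hs ac y (by
      intro k hk
      rw [hy]
      apply x.2
      simp only [Finset.mem_insert, Finset.mem_singleton]
      omega)
    refine ⟨fun v => ⟨y' v, fun k hk => h1 k ?_ v⟩, ?_⟩
    · simp only [Finset.mem_insert, Finset.mem_singleton] at hk
      omega
    · apply Subtype.ext
      rw [e1_apply]
      exact h2.trans hy
  · rintro ⟨y, rfl⟩
    rw [ee_apply, e1_apply]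
    exact augm_D1 ad _

include h4 ac in
theorem exact1 (x : Q1 ad) : e1 ad hi x = 0 ↔ x ∈ LinearMap.range (e2 ad hs hi) := by
  constructor
  · intro h
    have h0 : D1 (fun v => rmg ad (gen ad v)) (fun v => (x v : ZG (RAAG ad))) = 0 := by
      rw [← e1_apply ad hi, h]; rfl
    rw [D1_eq] at h0
    obtain ⟨y, hy, hyx⟩ := (Pool.Agent.W304.DU.th V (ZG (RAAG ad)) ad (Rg ad) hs hi h4
      (reg ad hs hi) Finset.univ).1 (fun v => (x v : ZG (RAAG ad)))
      (fun v hv => absurd (Finset.mem_univ v) hv) h0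
    rw [Finset.coe_univ] at hy
    obtain ⟨y', hyA, h1, h2⟩ := (gr ad).slab1 hs ac y hy (by
      intro k hk b
      rw [D2_eq, ← hyx]
      apply (x b).2
      simp only [Finset.mem_insert, Finset.mem_singleton]
      omega)
    obtain ⟨w, hw⟩ := exists_alt ad hs hi y' hyA h1
    refine ⟨w, ?_⟩
    ext1 b
    apply Subtype.ext
    rw [e2_apply]
    have h5 : (fun a b => alt ad a b w) = y' := funext fun a => funext fun b => hw a b
    rw [h5, h2, D2_eq]
    exact (hyx b).symm
  · rintro ⟨w, rfl⟩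
    apply Subtype.ext
    rw [e1_apply]
    have h5 : (fun v => ((e2 ad hs hi w v : CF ad {0, 1}) : ZG (RAAG ad))) =
        D2 (fun v => rmg ad (gen ad v)) (fun a b => alt ad a b w) :=
      funext fun v => e2_apply ad hs hi w v
    rw [h5]
    exact (gr ad).dd1 _ (alt_mem ad hs hi w)

include h4 ac in
theorem exact2 (w : Q2 ad) (h : e2 ad hs hi w = 0) : w = 0 := by
  have h0 : ∀ b, ∑ a, Rg ad a (alt ad a b w) = 0 := by
    intro b
    rw [← D2_eq ad (fun a b => alt ad a b w), ← e2_apply ad hs hi, h]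
    rfl
  obtain ⟨z, hz, hzx⟩ := (Pool.Agent.W304.DU.th V (ZG (RAAG ad)) ad (Rg ad) hs hi h4
    (reg ad hs hi) Finset.univ).2.1 (fun a b => alt ad a b w)
    (by rw [Finset.coe_univ]; exact alt_mem ad hs hi w) h0
  rw [Finset.coe_univ] at hz
  have hz0 : z = 0 := (gr ad).slab2 hs ac z hz (by
    intro k hk b c
    rw [D3_eq, ← hzx]
    apply alt_CF ad hs hi w b c
    simpa using hk)
  ext1 q
  apply Subtype.ext
  have h6 := hzx q.1.1 q.1.2
  rw [alt_lt ad w q.2, hz0] at h6
  change ((w q : CF ad {0}) : ZG (RAAG ad)) = 0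
  refine Eq.trans ?_ (h6.trans ?_)
  · rfl
  · simp

/-- the modules of the resolution -/
noncomputable def QM : ℕ → ModuleCat.{0} (ZG (BB ad))
  | 0 => ModuleCat.of (ZG (BB ad)) (Q0 ad)
  | 1 => ModuleCat.of (ZG (BB ad)) (Q1 ad)
  | 2 => ModuleCat.of (ZG (BB ad)) (Q2 ad)
  | _ + 3 => ModuleCat.of (ZG (BB ad)) PUnit

/-- the differentials of the resolution -/
noncomputable def QD : ∀ i, QM ad (i + 1) →ₗ[ZG (BB ad)] QM ad i
  | 0 => e1 ad hi
  | 1 => e2 ad hs hi
  | _ + 2 => 0

end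

/-- **FP3** -/
theorem hfp3 : PropHFP3 := by
  intro V _ _ hne ad hs hi h4 ac
  obtain ⟨o⟩ := hne
  have f0 := free_CF ad o hi
  have g0 := fin_CF ad o hi
  have hr : Reso (G := BB ad) (fun i => (QM ad i : Type)) (QD ad hs hi) (ee ad) := by
    refine ⟨?_, ?_, ?_, ?_⟩
    · intro n
      refine ⟨⟨io ad (n • (1 : ZG (BB ad))), ?_⟩, ?_⟩
      · intro k hk
        exact pz_io ad k _ (by rintro rfl; simp at hk)
      · change augm (RAAG ad) (io ad (n • (1 : ZG (BB ad)))) = n
        rw [map_zsmul, map_one, map_zsmul, Pool.Agent.Y448.HC.augm_one, smul_eq_mul, mul_one]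
    · intro g x
      change augm (RAAG ad) (io ad (MonoidAlgebra.of ℤ (BB ad) g) * x.1) = augm (RAAG ad) x.1
      rw [Pool.Agent.Y448.HC.augm_mul]
      have : io ad (MonoidAlgebra.of ℤ (BB ad) g) = MonoidAlgebra.of ℤ (RAAG ad) (g : RAAG ad) :=
        io_single ad g 1
      rw [this, Pool.Agent.Y448.HC.augm_of, one_mul]
    · intro x
      exact exact0 ad hs hi ac x
    · intro i x
      match i, x with
      | 0, x => exact exact1 ad hs hi h4 ac x
      | 1, x =>
        constructor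
        · intro h
          rw [exact2 ad hs hi h4 ac x h]
          exact zero_mem _
        · rintro ⟨y, rfl⟩
          exact map_zero (e2 ad hs hi)
      | n + 2, x =>
        constructor
        · intro _
          exact ⟨0, Subsingleton.elim (α := PUnit) _ _⟩
        · intro _
          rfl
  have hproj : ∀ i, Module.Projective (ZG (BB ad)) (QM ad i) := by
    intro i
    match i with
    | 0 =>
      have := f0 {0, 1, 2}
      exact inferInstanceAs (Module.Projective (ZG (BB ad)) (CF ad {0, 1, 2}))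
    | 1 =>
      have := f0 {0, 1}
      exact inferInstanceAs (Module.Projective (ZG (BB ad)) (V → CF ad {0, 1}))
    | 2 =>
      have := f0 {0}
      exact inferInstanceAs (Module.Projective (ZG (BB ad)) (Ed ad → CF ad {0}))
    | n + 3 => exact inferInstanceAs (Module.Projective (ZG (BB ad)) PUnit)
  refine fpc_of_reso hr 3 ?_
  intro k hk
  match k, hk with
  | 0, _ => exact g0 {0, 1, 2}
  | 1, _ =>
    have := g0 {0, 1}
    exact inferInstanceAs (Module.Finite (ZG (BB ad)) (V → CF ad {0, 1}))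
  | 2, _ =>
    have := g0 {0}
    exact inferInstanceAs (Module.Finite (ZG (BB ad)) (Ed ad → CF ad {0}))
  | 3, _ => exact inferInstanceAs (Module.Finite (ZG (BB ad)) PUnit)

end Pool.Agent.N348.HC
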