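import Mathlib

/-!
# Squeezing a chain into a slab (HC/FP3, subtask 391, for MP_3ca9d5_al)
-/

set_option autoImplicit false

namespace Pool.Agent.N348.HC

/-- Removing the top and the bottom parts of a chain, one at a time. -/
theorem squeeze {C X : Type*} [AddCommGroup C] [AddCommGroup X] (pC : ℤ → C →+ C)
    (pX : ℤ → X →+ X) (d : C →+ X) (S B : AddSubgroup C) (hBS : B ≤ S) (hB : ∀ b ∈ B, d b = 0)
    (top : ∀ n : ℤ, ∀ y ∈ S, (∀ k, n < k → pC k y = 0) → pX (n + 1) (d y) = 0 →
      ∃ b ∈ B, (∀ k, k ≠ n → k ≠ n - 1 → pC k b = 0) ∧ pC n b = pC n y)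
    (bot : ∀ m : ℤ, ∀ y ∈ S, (∀ k, k < m → pC k y = 0) → pX m (d y) = 0 →
      ∃ b ∈ B, (∀ k, k ≠ m → k ≠ m + 1 → pC k b = 0) ∧ pC m b = pC m y)
    (fin : ∀ y, ∃ N : ℤ, ∀ k, (k < -N ∨ N < k) → pC k y = 0)
    (lo hi : ℤ) (hlh : lo ≤ hi) (y : C) (hy : y ∈ S)
    (hd : ∀ k, (k < lo ∨ hi + 1 < k) → pX k (d y) = 0) :
    ∃ b ∈ B, ∀ k, (k < lo ∨ hi < k) → pC k (y - b) = 0 := by
  obtain ⟨N, hN⟩ := fin y
  -- top part
  have h1 : ∀ j : ℕ, ∃ b ∈ B, ∀ k, (k < min (-N) lo ∨ max N hi - j < k ∧ hi < k) →
      pC k (y - b) = 0 := by
    intro j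
    induction j with
    | zero =>
      refine ⟨0, zero_mem _, fun k hk => ?_⟩
      rw [sub_zero]
      apply hN
      rcases hk with hk | hk
      · left; exact lt_of_lt_of_le hk (min_le_left _ _)
      · right
        have := le_max_left N hi
        have h2 := hk.1
        push_cast at h2
        linarith
    | succ j ih =>
      obtain ⟨b, hb, hk⟩ := ih
      by_cases hc : max N hi - j ≤ hi
      · refine ⟨b, hb, fun k hk' => hk k ?_⟩
        rcases hk' with h | h
        · exact Or.inl h
        · exact Or.inr ⟨by linarith [h.2], h.2⟩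
      · push Not at hc
        obtain ⟨c, hcB, hc1, hc2⟩ := top (max N hi - j) (y - b) (sub_mem hy (hBS hb))
          (fun k hk1 => hk k (Or.inr ⟨hk1, by linarith⟩)) (by
            rw [map_sub, hB b hb, sub_zero]
            exact hd _ (Or.inr (by linarith)))
        refine ⟨b + c, add_mem hb hcB, fun k hk' => ?_⟩
        rw [← sub_sub, map_sub]
        by_cases hkn : k = max N hi - j
        · rw [hkn, hc2, sub_self]
        · have hkn1 : k ≠ max N hi - j - 1 := by
            rcases hk' with h | h
            · have := min_le_right (-N) lo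
              intro h'
              omega
            · push_cast at h
              intro h'
              omega
          rw [hc1 k hkn hkn1, sub_zero]
          apply hk
          rcases hk' with h | h
          · exact Or.inl h
          · right
            push_cast at h
            refine ⟨?_, h.2⟩
            omega
  obtain ⟨b1, hb1, h1⟩ := h1 (max N hi - hi).toNat
  have h1' : ∀ k, (k < min (-N) lo ∨ hi < k) → pC k (y - b1) = 0 := by
    intro k hk
    apply h1
    rcases hk with h | h
    · exact Or.inl h
    · refine Or.inr ⟨?_, h⟩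
      have := le_max_right N hi
      omega
  -- bottom part
  have h2 : ∀ j : ℕ, ∃ b ∈ B, ∀ k, ((k < min (-N) lo + j ∧ k < lo) ∨ hi < k) →
      pC k (y - b) = 0 := by
    intro j
    induction j with
    | zero =>
      refine ⟨b1, hb1, fun k hk => h1' k ?_⟩
      rcases hk with h | h
      · left
        have := h.1
        push_cast at this
        linarith
      · exact Or.inr h
    | succ j ih =>
      obtain ⟨b, hb, hk⟩ := ih
      by_cases hc : lo ≤ min (-N) lo + j
      · refine ⟨b, hb, fun k hk' => hk k ?_⟩
        rcases hk' with h | h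
        · exact Or.inl ⟨by linarith [h.2], h.2⟩
        · exact Or.inr h
      · push Not at hc
        obtain ⟨c, hcB, hc1, hc2⟩ := bot (min (-N) lo + j) (y - b) (sub_mem hy (hBS hb))
          (fun k hk1 => hk k (Or.inl ⟨hk1, by linarith⟩)) (by
            rw [map_sub, hB b hb, sub_zero]
            exact hd _ (Or.inl (by linarith)))
        refine ⟨b + c, add_mem hb hcB, fun k hk' => ?_⟩
        rw [← sub_sub, map_sub]
        by_cases hkn : k = min (-N) lo + j
        · rw [hkn, hc2, sub_self]
        · have hkn1 : k ≠ min (-N) lo + j + 1 := by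
            rcases hk' with h | h
            · push_cast at h
              intro h'
              omega
            · intro h'
              omega
          rw [hc1 k hkn hkn1, sub_zero]
          apply hk
          rcases hk' with h | h
          · left
            push_cast at h
            refine ⟨?_, h.2⟩
            omega
          · exact Or.inr h
  obtain ⟨b2, hb2, h2⟩ := h2 (lo - min (-N) lo).toNat
  refine ⟨b2, hb2, fun k hk => h2 k ?_⟩
  rcases hk with h | h
  · left
    refine ⟨?_, h⟩
    have := min_le_right (-N) lo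
    omega
  · exact Or.inr h

end Pool.Agent.N348.HC
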