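import Pool.Agent.Y66.HC.Defs
import Pool.Agent.N348.HC.Squeeze

/-!
# Pushing chains of the Salvetti complex into a slab (HC/FP3)
-/

set_option autoImplicit false

namespace Pool.Agent.N348.HC

open Pool.Agent.W326.DU Pool.Agent.Y66.HC

/-- A grading of `M` by heights and automorphisms raising the height by one. -/
structure Gr {V M : Type} [AddCommGroup M] (ad : V → V → Prop) (p : ℤ → M →+ M)
    (T : V → M ≃+ M) : Prop where
  pT : ∀ v k x, p k (T v x) = T v (p (k - 1) x)
  pp : ∀ k x, p k (p k x) = p k x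
  pq : ∀ k l x, k ≠ l → p k (p l x) = 0
  fin : ∀ x, ∃ N : ℤ, ∀ k, (k < -N ∨ N < k) → p k x = 0
  ext : ∀ x, (∀ k, p k x = 0) → x = 0
  comm : ∀ a b, ad a b → ∀ x, T a (T b x) = T b (T a x)
  tf : ∀ x : M, x = -x → x = 0

section
variable {V M : Type} [AddCommGroup M] {ad : V → V → Prop} {p : ℤ → M →+ M} {T : V → M ≃+ M}

/-- `R v x = T v x - x` -/
def Rr (T : V → M ≃+ M) (v : V) : M →+ M := (T v).toAddMonoidHom - AddMonoidHom.id M

theorem Rr_apply (v : V) (x : M) : Rr T v x = T v x - x := rfl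

theorem Gr.pR (g : Gr ad p T) (v : V) (k : ℤ) (x : M) :
    p k (Rr T v x) = T v (p (k - 1) x) - p k x := by
  rw [Rr_apply, map_sub, g.pT]

theorem Gr.pTs (g : Gr ad p T) (v : V) (k : ℤ) (x : M) :
    p k ((T v).symm x) = (T v).symm (p (k + 1) x) := by
  apply (T v).injective
  rw [AddEquiv.apply_symm_apply]
  have := g.pT v (k + 1) ((T v).symm x)
  rw [AddEquiv.apply_symm_apply, add_sub_cancel_right] at this
  exact this.symm

theorem Gr.comms (g : Gr ad p T) {a b : V} (h : ad a b) (x : M) :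
    (T a).symm ((T b).symm x) = (T b).symm ((T a).symm x) := by
  apply (T a).injective
  apply (T b).injective
  rw [AddEquiv.apply_symm_apply, AddEquiv.apply_symm_apply, ← g.comm a b h,
    AddEquiv.apply_symm_apply, AddEquiv.apply_symm_apply]

theorem Gr.comm1 (g : Gr ad p T) {a b : V} (h : ad a b) (x : M) :
    T a ((T b).symm x) = (T b).symm (T a x) := by
  apply (T b).injective
  rw [← g.comm a b h, AddEquiv.apply_symm_apply, AddEquiv.apply_symm_apply]

theorem Gr.Rcomm (g : Gr ad p T) {a b : V} (h : ad a b) (x : M) :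
    Rr T a (Rr T b x) = Rr T b (Rr T a x) := by
  simp only [Rr_apply, map_sub]
  rw [g.comm a b h]
  abel

variable [Fintype V]

/-- the first differential -/
def D1 (T : V → M ≃+ M) : (V → M) →+ M where
  toFun x := ∑ v, Rr T v (x v)
  map_zero' := by simp
  map_add' x y := by simp [Finset.sum_add_distrib]

/-- the second differential -/
def D2 (T : V → M ≃+ M) : (V → V → M) →+ (V → M) where
  toFun y := fun b => ∑ a, Rr T a (y a b)
  map_zero' := by ext; simp
  map_add' x y := by ext; simp [Finset.sum_add_distrib]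

/-- the third differential -/
def D3 (T : V → M ≃+ M) : (V → V → V → M) →+ (V → V → M) where
  toFun z := fun b c => ∑ a, Rr T a (z a b c)
  map_zero' := by ext; simp
  map_add' x y := by ext; simp [Finset.sum_add_distrib]

/-- alternating 2-functions -/
def A2 (M : Type) [AddCommGroup M] (ad : V → V → Prop) : AddSubgroup (V → V → M) where
  carrier := {y | IsAlt2 ad Set.univ y}
  zero_mem' := ⟨fun a b => by simp, fun a b _ => rfl⟩
  add_mem' := by
    intro x y hx hy
    refine ⟨fun a b => ?_, fun a b h => ?_⟩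
    · simp only [Pi.add_apply]; rw [hx.1 a b, hy.1 a b]; abel
    · simp only [Pi.add_apply]; rw [hx.2 a b h, hy.2 a b h, add_zero]
  neg_mem' := by
    intro x hx
    refine ⟨fun a b => ?_, fun a b h => ?_⟩
    · simp only [Pi.neg_apply]; rw [hx.1 a b]
    · simp only [Pi.neg_apply]; rw [hx.2 a b h, neg_zero]

/-- alternating 3-functions -/
def A3 (M : Type) [AddCommGroup M] (ad : V → V → Prop) : AddSubgroup (V → V → V → M) where
  carrier := {y | IsAlt3 ad Set.univ y}
  zero_mem' := ⟨fun a b c => by simp, fun a b c => by simp, fun a b c _ => rfl⟩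
  add_mem' := by
    intro x y hx hy
    refine ⟨fun a b c => ?_, fun a b c => ?_, fun a b c h => ?_⟩
    · simp only [Pi.add_apply]; rw [hx.1 a b c, hy.1 a b c]; abel
    · simp only [Pi.add_apply]; rw [hx.2.1 a b c, hy.2.1 a b c]; abel
    · simp only [Pi.add_apply]; rw [hx.2.2 a b c h, hy.2.2 a b c h, add_zero]
  neg_mem' := by
    intro x hx
    refine ⟨fun a b c => ?_, fun a b c => ?_, fun a b c h => ?_⟩
    · simp only [Pi.neg_apply]; rw [hx.1 a b c]
    · simp only [Pi.neg_apply]; rw [hx.2.1 a b c]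
    · simp only [Pi.neg_apply]; rw [hx.2.2 a b c h, neg_zero]

theorem sum_anti (h2 : ∀ x : M, x = -x → x = 0) (f : V → V → M)
    (h : ∀ a b, f a b = - f b a) : ∑ a, ∑ b, f a b = 0 := by
  apply h2
  calc ∑ a, ∑ b, f a b = ∑ b, ∑ a, f a b := Finset.sum_comm
    _ = ∑ b, ∑ a, - f b a := by
        refine Finset.sum_congr rfl fun b _ => Finset.sum_congr rfl fun a _ => h a b
    _ = - ∑ a, ∑ b, f a b := by simp

theorem Gr.dd1 (g : Gr ad p T) (y : V → V → M) (hy : y ∈ A2 M ad) : D1 T (D2 T y) = 0 := by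
  change ∑ b, Rr T b (∑ a, Rr T a (y a b)) = 0
  simp only [map_sum]
  refine sum_anti g.tf (fun b a => Rr T b (Rr T a (y a b))) fun b a => ?_
  by_cases hab : ad a b
  · rw [g.Rcomm hab, hy.1 a b, map_neg, map_neg]
  · have h1 := hy.2 a b (fun h => hab h.2.2)
    have h3 : y b a = 0 := by rw [hy.1 b a, h1, neg_zero]
    rw [h1, h3]
    simp

theorem Gr.dd2 (g : Gr ad p T) (z : V → V → V → M) (hz : z ∈ A3 M ad) : D2 T (D3 T z) = 0 := by
  ext b
  change ∑ a, Rr T a (∑ c, Rr T c (z c a b)) = 0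
  simp only [map_sum]
  refine sum_anti g.tf (fun a c => Rr T a (Rr T c (z c a b))) fun a c => ?_
  by_cases hab : ad c a
  · rw [g.Rcomm hab, hz.1 c a b, map_neg, map_neg]
  · have h1 := hz.2.2 c a b (fun h => hab h.2.2.2.1)
    have h3 : z a c b = 0 := by rw [hz.1 a c b, h1, neg_zero]
    rw [h1, h3]
    simp

theorem D3_mem (z : V → V → V → M) (hz : z ∈ A3 M ad) : D3 T z ∈ A2 M ad := by
  refine ⟨fun a b => ?_, fun a b h => ?_⟩
  · change ∑ c, Rr T c (z c a b) = - ∑ c, Rr T c (z c b a)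
    rw [← Finset.sum_neg_distrib]
    refine Finset.sum_congr rfl fun c _ => ?_
    rw [hz.2.1 c a b, map_neg]
  · change ∑ c, Rr T c (z c a b) = 0
    refine Finset.sum_eq_zero fun c _ => ?_
    rw [hz.2.2 c a b, map_zero]
    intro h'
    exact h ⟨trivial, trivial, h'.2.2.2.2.1⟩

end

end Pool.Agent.N348.HC
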