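import Pool.Agent.N348.HC.Grade

/-!
# The pushes and the exactness of the slab (HC/FP3)
-/

set_option autoImplicit false

namespace Pool.Agent.N348.HC

open Pool.Agent.W326.DU Pool.Agent.Y66.HC

variable {V M : Type} [AddCommGroup M] {ad : V → V → Prop} {p : ℤ → M →+ M} {T : V → M ≃+ M}
  [Fintype V]

theorem Gr.pD1 (g : Gr ad p T) (k : ℤ) (y : V → M) :
    p k (D1 T y) = ∑ v, (T v (p (k - 1) (y v)) - p k (y v)) := by
  change p k (∑ v, Rr T v (y v)) = _
  rw [map_sum]
  exact Finset.sum_congr rfl fun v _ => g.pR v k (y v)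

theorem Gr.pD2 (g : Gr ad p T) (k : ℤ) (y : V → V → M) (b : V) :
    p k (D2 T y b) = ∑ a, (T a (p (k - 1) (y a b)) - p k (y a b)) := by
  change p k (∑ v, Rr T v (y v b)) = _
  rw [map_sum]
  exact Finset.sum_congr rfl fun v _ => g.pR v k (y v b)

theorem Gr.pD3 (g : Gr ad p T) (k : ℤ) (y : V → V → V → M) (b c : V) :
    p k (D3 T y b c) = ∑ a, (T a (p (k - 1) (y a b c)) - p k (y a b c)) := by
  change p k (∑ v, Rr T v (y v b c)) = _
  rw [map_sum]
  exact Finset.sum_congr rfl fun v _ => g.pR v k (y v b c)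

theorem Gr.top1 (g : Gr ad p T) (hs : ∀ a b, ad a b → ad b a) (ac : Acyc ad) (n : ℤ) (y : V → M)
    (hy : ∀ k, n < k → ∀ v, p k (y v) = 0) (ht : p (n + 1) (D1 T y) = 0) :
    ∃ z ∈ A2 M ad, (∀ k, k ≠ n → k ≠ n - 1 → ∀ b, p k (D2 T z b) = 0) ∧
      ∀ b, p n (D2 T z b) = p n (y b) := by
  have h0 : ∑ v, T v (p n (y v)) = 0 := by
    rw [g.pD1, add_sub_cancel_right] at ht
    rw [← ht]
    exact Finset.sum_congr rfl fun v _ => by rw [hy (n + 1) (by linarith) v, sub_zero]
  obtain ⟨e, he, hb⟩ := ac.ac1 M (fun v => T v (p n (y v))) h0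
  have e0 : ∀ a b, ¬ ad a b → e a b = 0 := fun a b h => he.2 a b (fun h' => h h'.2.2)
  have hp : ∀ a b k, k ≠ n - 1 → p k ((T b).symm ((T a).symm (p (n + 1) (e a b)))) = 0 := by
    intro a b k hk
    rw [g.pTs, g.pTs, g.pq _ _ _ (by omega), map_zero, map_zero]
  refine ⟨fun a b => (T b).symm ((T a).symm (p (n + 1) (e a b))), ⟨fun a b => ?_, fun a b h => ?_⟩,
    fun k hk1 hk2 b => ?_, fun b => ?_⟩
  · beta_reduce
    by_cases hab : ad a b
    · beta_reduce
      rw [he.1 a b, map_neg, map_neg, map_neg, g.comms hab]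
    · rw [e0 a b hab, e0 b a (fun h => hab (hs _ _ h))]
      simp
  · beta_reduce
    rw [he.2 a b h]; simp
  · rw [g.pD2]
    refine Finset.sum_eq_zero fun a _ => ?_
    rw [hp a b k hk2, hp a b (k - 1) (by omega), map_zero, sub_zero]
  · rw [g.pD2]
    have h1 : ∀ a, T a (p (n - 1) ((T b).symm ((T a).symm (p (n + 1) (e a b))))) -
        p n ((T b).symm ((T a).symm (p (n + 1) (e a b)))) = (T b).symm (p (n + 1) (e a b)) := by
      intro a
      rw [hp a b n (by omega), sub_zero, g.pTs, g.pTs]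
      have : n - 1 + 1 + 1 = n + 1 := by ring
      rw [this, g.pp]
      by_cases hab : ad a b
      · rw [g.comm1 hab, AddEquiv.apply_symm_apply]
      · rw [e0 a b hab]; simp
    rw [Finset.sum_congr rfl fun a _ => h1 a, ← map_sum, ← map_sum, ← hb b, g.pT,
      add_sub_cancel_right, g.pp, AddEquiv.symm_apply_apply]

theorem Gr.bot1 (g : Gr ad p T) (ac : Acyc ad) (m : ℤ) (y : V → M)
    (hy : ∀ k, k < m → ∀ v, p k (y v) = 0) (ht : p m (D1 T y) = 0) :
    ∃ z ∈ A2 M ad, (∀ k, k ≠ m → k ≠ m + 1 → ∀ b, p k (D2 T z b) = 0) ∧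
      ∀ b, p m (D2 T z b) = p m (y b) := by
  have h0 : ∑ v, p m (y v) = 0 := by
    rw [g.pD1] at ht
    have : ∑ v, (T v (p (m - 1) (y v)) - p m (y v)) = - ∑ v, p m (y v) := by
      rw [← Finset.sum_neg_distrib]
      exact Finset.sum_congr rfl fun v _ => by
        rw [hy (m - 1) (by linarith) v, map_zero, zero_sub]
    rw [this, neg_eq_zero] at ht
    exact ht
  obtain ⟨e, he, hb⟩ := ac.ac1 M (fun v => p m (y v)) h0
  have hp : ∀ a b k, k ≠ m → p k (- p m (e a b)) = 0 := by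
    intro a b k hk
    rw [map_neg, g.pq _ _ _ hk, neg_zero]
  refine ⟨fun a b => - p m (e a b), ⟨fun a b => ?_, fun a b h => ?_⟩,
    fun k hk1 hk2 b => ?_, fun b => ?_⟩
  · beta_reduce
    rw [he.1 a b, map_neg]
  · beta_reduce
    rw [he.2 a b h]; simp
  · rw [g.pD2]
    refine Finset.sum_eq_zero fun a _ => ?_
    rw [hp a b k hk1, hp a b (k - 1) (by omega), map_zero, sub_zero]
  · rw [g.pD2]
    have h1 : ∀ a, T a (p (m - 1) (- p m (e a b))) - p m (- p m (e a b)) = p m (e a b) := by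
      intro a
      rw [hp a b (m - 1) (by omega), map_zero, zero_sub, map_neg, neg_neg, g.pp]
    rw [Finset.sum_congr rfl fun a _ => h1 a, ← map_sum, ← hb b, g.pp]

theorem Gr.top2 (g : Gr ad p T) (hs : ∀ a b, ad a b → ad b a) (ac : Acyc ad) (n : ℤ)
    (y : V → V → M) (hA : y ∈ A2 M ad)
    (hy : ∀ k, n < k → ∀ a b, p k (y a b) = 0) (ht : ∀ b, p (n + 1) (D2 T y b) = 0) :
    ∃ z ∈ A3 M ad, (∀ k, k ≠ n → k ≠ n - 1 → ∀ b c, p k (D3 T z b c) = 0) ∧
      ∀ b c, p n (D3 T z b c) = p n (y b c) := by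
  have y0 : ∀ a b, ¬ ad a b → y a b = 0 := fun a b h => hA.2 a b (fun h' => h h'.2.2)
  have h0 : ∀ b, ∑ a, T a (p n (y a b)) = 0 := by
    intro b
    have ht := ht b
    rw [g.pD2, add_sub_cancel_right] at ht
    rw [← ht]
    exact Finset.sum_congr rfl fun v _ => by rw [hy (n + 1) (by linarith) v b, sub_zero]
  have hw : IsAlt2 ad Set.univ (fun a b => T a (T b (p n (y a b)))) := by
    refine ⟨fun a b => ?_, fun a b h => ?_⟩
    · beta_reduce
      by_cases hab : ad a b
      · beta_reduce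
        rw [hA.1 a b, map_neg, map_neg, map_neg, g.comm a b hab]
      · rw [y0 a b hab, y0 b a (fun h => hab (hs _ _ h))]
        simp
    · beta_reduce
      rw [hA.2 a b h]; simp
  have hw0 : ∀ b, ∑ a, T a (T b (p n (y a b))) = 0 := by
    intro b
    have : ∑ a, T a (T b (p n (y a b))) = T b (∑ a, T a (p n (y a b))) := by
      rw [map_sum]
      refine Finset.sum_congr rfl fun a _ => ?_
      by_cases hab : ad a b
      · rw [g.comm a b hab]
      · rw [y0 a b hab]; simp
    rw [this, h0, map_zero]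
  obtain ⟨e, he, hb⟩ := ac.ac2 M _ hw hw0
  have e0 : ∀ a b c, ¬ ad a b → e a b c = 0 := fun a b c h => he.2.2 a b c (fun h' => h h'.2.2.2.1)
  have e1 : ∀ a b c, ¬ ad b c → e a b c = 0 :=
    fun a b c h => he.2.2 a b c (fun h' => h h'.2.2.2.2.1)
  have e2 : ∀ a b c, ¬ ad a c → e a b c = 0 :=
    fun a b c h => he.2.2 a b c (fun h' => h h'.2.2.2.2.2)
  have hp : ∀ a b c k, k ≠ n - 1 →
      p k ((T c).symm ((T b).symm ((T a).symm (p (n + 2) (e a b c))))) = 0 := by
    intro a b c k hk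
    rw [g.pTs, g.pTs, g.pTs, g.pq _ _ _ (by omega), map_zero, map_zero, map_zero]
  refine ⟨fun a b c => (T c).symm ((T b).symm ((T a).symm (p (n + 2) (e a b c)))),
    ⟨fun a b c => ?_, fun a b c => ?_, fun a b c h => ?_⟩, fun k hk1 hk2 b c => ?_,
    fun b c => ?_⟩
  · beta_reduce
    by_cases hab : ad a b
    · beta_reduce
      rw [he.1 a b c, map_neg, map_neg, map_neg, map_neg, g.comms hab]
    · rw [e0 a b c hab, e0 b a c (fun h => hab (hs _ _ h))]
      simp
  · beta_reduce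
    by_cases hab : ad b c
    · beta_reduce
      rw [he.2.1 a b c, map_neg, map_neg, map_neg, map_neg, g.comms hab]
    · rw [e1 a b c hab, e1 a c b (fun h => hab (hs _ _ h))]
      simp
  · beta_reduce
    rw [he.2.2 a b c h]; simp
  · rw [g.pD3]
    refine Finset.sum_eq_zero fun a _ => ?_
    rw [hp a b c k hk2, hp a b c (k - 1) (by omega), map_zero, sub_zero]
  · rw [g.pD3]
    have h1 : ∀ a, T a (p (n - 1) ((T c).symm ((T b).symm ((T a).symm (p (n + 2) (e a b c)))))) -
        p n ((T c).symm ((T b).symm ((T a).symm (p (n + 2) (e a b c))))) =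
        (T c).symm ((T b).symm (p (n + 2) (e a b c))) := by
      intro a
      rw [hp a b c n (by omega), sub_zero, g.pTs, g.pTs, g.pTs]
      have : n - 1 + 1 + 1 + 1 = n + 2 := by ring
      rw [this, g.pp]
      by_cases hab : ad a b
      · by_cases hac : ad a c
        · rw [g.comm1 hac, g.comm1 hab, AddEquiv.apply_symm_apply]
        · rw [e2 a b c hac]; simp
      · rw [e0 a b c hab]; simp
    rw [Finset.sum_congr rfl fun a _ => h1 a, ← map_sum, ← map_sum, ← map_sum, ← hb b c, g.pT,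
      g.pT]
    have h3 : n + 2 - 1 - 1 = n := by ring
    rw [h3, g.pp]
    by_cases hbc : ad b c
    · rw [AddEquiv.symm_apply_apply, AddEquiv.symm_apply_apply]
    · rw [y0 b c hbc]; simp

theorem Gr.bot2 (g : Gr ad p T) (ac : Acyc ad) (m : ℤ) (y : V → V → M) (hA : y ∈ A2 M ad)
    (hy : ∀ k, k < m → ∀ a b, p k (y a b) = 0) (ht : ∀ b, p m (D2 T y b) = 0) :
    ∃ z ∈ A3 M ad, (∀ k, k ≠ m → k ≠ m + 1 → ∀ b c, p k (D3 T z b c) = 0) ∧
      ∀ b c, p m (D3 T z b c) = p m (y b c) := by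
  have h0 : ∀ b, ∑ a, p m (y a b) = 0 := by
    intro b
    have ht := ht b
    rw [g.pD2] at ht
    have : ∑ v, (T v (p (m - 1) (y v b)) - p m (y v b)) = - ∑ v, p m (y v b) := by
      rw [← Finset.sum_neg_distrib]
      exact Finset.sum_congr rfl fun v _ => by
        rw [hy (m - 1) (by linarith) v b, map_zero, zero_sub]
    rw [this, neg_eq_zero] at ht
    exact ht
  have hw : IsAlt2 ad Set.univ (fun a b => p m (y a b)) := by
    refine ⟨fun a b => ?_, fun a b h => ?_⟩
    · beta_reduce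
      rw [hA.1 a b, map_neg]
    · beta_reduce
      rw [hA.2 a b h, map_zero]
  obtain ⟨e, he, hb⟩ := ac.ac2 M _ hw h0
  have hp : ∀ a b c k, k ≠ m → p k (- p m (e a b c)) = 0 := by
    intro a b c k hk
    rw [map_neg, g.pq _ _ _ hk, neg_zero]
  refine ⟨fun a b c => - p m (e a b c),
    ⟨fun a b c => ?_, fun a b c => ?_, fun a b c h => ?_⟩, fun k hk1 hk2 b c => ?_,
    fun b c => ?_⟩
  · beta_reduce
    rw [he.1 a b c, map_neg]
  · beta_reduce
    rw [he.2.1 a b c, map_neg]
  · beta_reduce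
    rw [he.2.2 a b c h]; simp
  · rw [g.pD3]
    refine Finset.sum_eq_zero fun a _ => ?_
    rw [hp a b c k hk1, hp a b c (k - 1) (by omega), map_zero, sub_zero]
  · rw [g.pD3]
    have h1 : ∀ a, T a (p (m - 1) (- p m (e a b c))) - p m (- p m (e a b c)) = p m (e a b c) := by
      intro a
      rw [hp a b c (m - 1) (by omega), map_zero, zero_sub, map_neg, neg_neg, g.pp]
    rw [Finset.sum_congr rfl fun a _ => h1 a, ← map_sum, ← hb b c, g.pp]

theorem Gr.top3 (g : Gr ad p T) (hs : ∀ a b, ad a b → ad b a) (ac : Acyc ad) (n : ℤ)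
    (z : V → V → V → M) (hA : z ∈ A3 M ad)
    (hz : ∀ a b c, p (n + 1) (z a b c) = 0) (ht : ∀ b c, p (n + 1) (D3 T z b c) = 0) :
    ∀ a b c, p n (z a b c) = 0 := by
  have e0 : ∀ a b c, ¬ ad a b → z a b c = 0 := fun a b c h => hA.2.2 a b c (fun h' => h h'.2.2.2.1)
  have e1 : ∀ a b c, ¬ ad b c → z a b c = 0 :=
    fun a b c h => hA.2.2 a b c (fun h' => h h'.2.2.2.2.1)
  have e2 : ∀ a b c, ¬ ad a c → z a b c = 0 :=
    fun a b c h => hA.2.2 a b c (fun h' => h h'.2.2.2.2.2)
  have h0 : ∀ b c, ∑ a, T a (p n (z a b c)) = 0 := by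
    intro b c
    have ht := ht b c
    rw [g.pD3, add_sub_cancel_right] at ht
    rw [← ht]
    exact Finset.sum_congr rfl fun v _ => by rw [hz v b c, sub_zero]
  have hw : IsAlt3 ad Set.univ (fun a b c => T a (T b (T c (p n (z a b c))))) := by
    refine ⟨fun a b c => ?_, fun a b c => ?_, fun a b c h => ?_⟩
    · beta_reduce
      by_cases hab : ad a b
      · beta_reduce
        rw [hA.1 a b c, map_neg, map_neg, map_neg, map_neg, g.comm a b hab]
      · rw [e0 a b c hab, e0 b a c (fun h => hab (hs _ _ h))]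
        simp
    · beta_reduce
      by_cases hab : ad b c
      · beta_reduce
        rw [hA.2.1 a b c, map_neg, map_neg, map_neg, map_neg, g.comm b c hab]
      · rw [e1 a b c hab, e1 a c b (fun h => hab (hs _ _ h))]
        simp
    · beta_reduce
      rw [hA.2.2 a b c h]; simp
  have hw0 : ∀ b c, ∑ a, T a (T b (T c (p n (z a b c)))) = 0 := by
    intro b c
    have : ∑ a, T a (T b (T c (p n (z a b c)))) = T b (T c (∑ a, T a (p n (z a b c)))) := by
      rw [map_sum, map_sum]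
      refine Finset.sum_congr rfl fun a _ => ?_
      by_cases hab : ad a b
      · by_cases hac : ad a c
        · rw [g.comm a b hab, g.comm a c hac]
        · rw [e2 a b c hac]; simp
      · rw [e0 a b c hab]; simp
    rw [this, h0, map_zero, map_zero]
  intro a b c
  have h3 := ac.ac3 M _ hw hw0 a b c
  simpa using h3

theorem Gr.bot3 (g : Gr ad p T) (ac : Acyc ad) (m : ℤ)
    (z : V → V → V → M) (hA : z ∈ A3 M ad)
    (hz : ∀ a b c, p (m - 1) (z a b c) = 0) (ht : ∀ b c, p m (D3 T z b c) = 0) :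
    ∀ a b c, p m (z a b c) = 0 := by
  have h0 : ∀ b c, ∑ a, p m (z a b c) = 0 := by
    intro b c
    have ht := ht b c
    rw [g.pD3] at ht
    have : ∑ v, (T v (p (m - 1) (z v b c)) - p m (z v b c)) = - ∑ v, p m (z v b c) := by
      rw [← Finset.sum_neg_distrib]
      exact Finset.sum_congr rfl fun v _ => by rw [hz v b c, map_zero, zero_sub]
    rw [this, neg_eq_zero] at ht
    exact ht
  have hw : IsAlt3 ad Set.univ (fun a b c => p m (z a b c)) := by
    refine ⟨fun a b c => ?_, fun a b c => ?_, fun a b c h => ?_⟩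
    · beta_reduce
      rw [hA.1 a b c, map_neg]
    · beta_reduce
      rw [hA.2.1 a b c, map_neg]
    · beta_reduce
      rw [hA.2.2 a b c h, map_zero]
  exact ac.ac3 M _ hw h0

/-- the pointwise grading -/
def P1 (p : ℤ → M →+ M) (k : ℤ) : (V → M) →+ (V → M) := (p k).compLeft V

/-- the pointwise grading -/
def P2 (p : ℤ → M →+ M) (k : ℤ) : (V → V → M) →+ (V → V → M) := ((p k).compLeft V).compLeft V

theorem fin_fun {ι X : Type} [Finite ι] (q : ℤ → X → Prop) (y : ι → X)
    (h : ∀ x, ∃ N : ℤ, ∀ k, (k < -N ∨ N < k) → q k x) :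
    ∃ N : ℤ, ∀ k, (k < -N ∨ N < k) → ∀ i, q k (y i) := by
  classical
  cases nonempty_fintype ι
  choose N hN using fun i => h (y i)
  refine ⟨∑ i, |N i|, fun k hk i => hN i k ?_⟩
  have h1 : |N i| ≤ ∑ i, |N i| :=
    Finset.single_le_sum (f := fun i => |N i|) (fun j _ => abs_nonneg _) (Finset.mem_univ i)
  have h2 := le_abs_self (N i)
  rcases hk with hk | hk
  · left; linarith
  · right; linarith

/-- **exactness in degree 0** -/
theorem Gr.slab0 (g : Gr ad p T) (hs : ∀ a b, ad a b → ad b a) (ac : Acyc ad) (y : V → M)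
    (hy : ∀ k, (k < 0 ∨ 2 < k) → p k (D1 T y) = 0) :
    ∃ y' : V → M, (∀ k, (k < 0 ∨ 1 < k) → ∀ v, p k (y' v) = 0) ∧ D1 T y' = D1 T y := by
  obtain ⟨b, hb, h⟩ := squeeze (P1 p) p (D1 T) ⊤ ((A2 M ad).map (D2 T)) le_top (by
      rintro _ ⟨z, hz, rfl⟩
      exact g.dd1 z hz) (by
      intro n y _ h1 h2
      obtain ⟨z, hz, h3, h4⟩ := g.top1 hs ac n y (fun k hk v => congrFun (h1 k hk) v) h2
      exact ⟨_, ⟨z, hz, rfl⟩, fun k h5 h6 => funext fun b => h3 k h5 h6 b, funext fun b => h4 b⟩) (by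
      intro n y _ h1 h2
      obtain ⟨z, hz, h3, h4⟩ := g.bot1 ac n y (fun k hk v => congrFun (h1 k hk) v) h2
      exact ⟨_, ⟨z, hz, rfl⟩, fun k h5 h6 => funext fun b => h3 k h5 h6 b, funext fun b => h4 b⟩) (by
      intro y
      obtain ⟨N, hN⟩ := fin_fun (fun k x => p k x = 0) y g.fin
      exact ⟨N, fun k hk => funext fun v => hN k hk v⟩) 0 1 (by norm_num) y trivial
      (fun k hk => hy k (by
        rcases hk with h | h
        · exact Or.inl h
        · exact Or.inr (by linarith)))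
  refine ⟨y - b, fun k hk v => congrFun (h k hk) v, ?_⟩
  obtain ⟨z, hz, rfl⟩ := hb
  have h5 : D1 T (D2 T z) = 0 := g.dd1 z hz
  rw [map_sub, h5, sub_zero]

/-- **exactness in degree 1** -/
theorem Gr.slab1 (g : Gr ad p T) (hs : ∀ a b, ad a b → ad b a) (ac : Acyc ad) (y : V → V → M)
    (hA : y ∈ A2 M ad) (hy : ∀ k, (k < 0 ∨ 1 < k) → ∀ b, p k (D2 T y b) = 0) :
    ∃ y' ∈ A2 M ad, (∀ k, k ≠ 0 → ∀ a b, p k (y' a b) = 0) ∧ D2 T y' = D2 T y := by
  obtain ⟨b, hb, h⟩ := squeeze (P2 p) (P1 p) (D2 T) (A2 M ad) ((A3 M ad).map (D3 T)) (by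
      rintro _ ⟨z, hz, rfl⟩
      exact D3_mem z hz) (by
      rintro _ ⟨z, hz, rfl⟩
      exact g.dd2 z hz) (by
      intro n y hyA h1 h2
      obtain ⟨z, hz, h3, h4⟩ := g.top2 hs ac n y hyA
        (fun k hk a b => congrFun (congrFun (h1 k hk) a) b) (fun b => congrFun h2 b)
      exact ⟨_, ⟨z, hz, rfl⟩, fun k h5 h6 => funext fun b => funext fun c => h3 k h5 h6 b c,
        funext fun b => funext fun c => h4 b c⟩) (by
      intro n y hyA h1 h2
      obtain ⟨z, hz, h3, h4⟩ := g.bot2 ac n y hyA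
        (fun k hk a b => congrFun (congrFun (h1 k hk) a) b) (fun b => congrFun h2 b)
      exact ⟨_, ⟨z, hz, rfl⟩, fun k h5 h6 => funext fun b => funext fun c => h3 k h5 h6 b c,
        funext fun b => funext fun c => h4 b c⟩) (by
      intro y
      obtain ⟨N, hN⟩ := fin_fun (fun k (x : V → M) => ∀ b, p k (x b) = 0) y
        (fun x => fin_fun (fun k x => p k x = 0) x g.fin)
      exact ⟨N, fun k hk => funext fun v => funext fun w => hN k hk v w⟩) 0 0 le_rfl y hA
      (fun k hk => funext fun b => hy k (by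
        rcases hk with h | h
        · exact Or.inl h
        · exact Or.inr (by linarith)) b)
  obtain ⟨z, hz, rfl⟩ := hb
  refine ⟨y - D3 T z, sub_mem hA (D3_mem z hz), fun k hk a b => ?_, ?_⟩
  · refine congrFun (congrFun (h k ?_) a) b
    rcases lt_or_gt_of_ne hk with h | h
    · exact Or.inl h
    · exact Or.inr h
  · have h5 : D2 T (D3 T z) = 0 := g.dd2 z hz
    rw [map_sub, h5, sub_zero]

/-- **exactness in degree 2** -/
theorem Gr.slab2 (g : Gr ad p T) (hs : ∀ a b, ad a b → ad b a) (ac : Acyc ad)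
    (z : V → V → V → M) (hA : z ∈ A3 M ad) (hy : ∀ k, k ≠ 0 → ∀ b c, p k (D3 T z b c) = 0) :
    z = 0 := by
  obtain ⟨N, hN⟩ := fin_fun (fun k (x : V → V → M) => ∀ a b, p k (x a b) = 0) z
    (fun x => fin_fun (fun k (x : V → M) => ∀ b, p k (x b) = 0) x
        (fun x => fin_fun (fun k x => p k x = 0) x g.fin))
  have h1 : ∀ j : ℕ, ∀ k : ℤ, N - j < k → 0 ≤ k → ∀ a b c, p k (z a b c) = 0 := by
    intro j
    induction j with
    | zero =>
      intro k hk _ a b c
      exact hN k (Or.inr (by push_cast at hk; linarith)) a b c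
    | succ j ih =>
      intro k hk h0
      refine g.top3 hs ac k z hA (ih (k + 1) (by push_cast at hk; linarith) (by linarith)) ?_
      exact hy (k + 1) (by omega)
  have h2 : ∀ j : ℕ, ∀ k : ℤ, k < -N + j → k < 0 → ∀ a b c, p k (z a b c) = 0 := by
    intro j
    induction j with
    | zero =>
      intro k hk _ a b c
      exact hN k (Or.inl (by push_cast at hk; linarith)) a b c
    | succ j ih =>
      intro k hk h0
      refine g.bot3 ac k z hA (ih (k - 1) (by push_cast at hk; linarith) (by linarith)) ?_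
      exact hy k (by omega)
  ext a b c
  apply g.ext
  intro k
  rcases lt_or_ge k 0 with h | h
  · exact h2 (k + N + 1).toNat k (by omega) h a b c
  · exact h1 (N - k + 1).toNat k (by omega) h a b c

end Pool.Agent.N348.HC
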