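import Pool.Agent.N348.HC.RegA
import Pool.Agent.N348.HC.Push

/-!
# The group ring of a RAAG as a module over the Bestvina-Brady group, graded by heights (HC/FP3)
-/

set_option autoImplicit false

namespace Pool.Agent.N348.HC

open Pool.Agent.W326.DU Pool.Agent.Y66.HC Pool.Agent.N271.HC

section
variable {V : Type} (ad : V → V → Prop)

/-- the height -/
def hgt (g : RAAG ad) : ℤ := Multiplicative.toAdd (ht ad g)

theorem hgt_mul (g h : RAAG ad) : hgt ad (g * h) = hgt ad g + hgt ad h := by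
  unfold hgt; rw [map_mul]; rfl

theorem hgt_inv (g : RAAG ad) : hgt ad g⁻¹ = - hgt ad g := by
  unfold hgt; rw [map_inv]; rfl

theorem hgt_gen (v : V) : hgt ad (gen ad v) = 1 := by
  unfold hgt; rw [ht_gen]; rfl

theorem hgt_zpow (g : RAAG ad) (n : ℤ) : hgt ad (g ^ n) = n * hgt ad g := by
  unfold hgt; rw [map_zpow]; simp

theorem hgt_BB (g : BB ad) : hgt ad (g : RAAG ad) = 0 := by
  have h : ht ad (g : RAAG ad) = 1 := g.2
  unfold hgt; rw [h]; rfl

theorem mem_BB {g : RAAG ad} (h : hgt ad g = 0) : g ∈ BB ad := by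
  change ht ad g = 1
  have : Multiplicative.toAdd (ht ad g) = 0 := h
  exact Multiplicative.toAdd.injective this

/-- the part of height `k` -/
noncomputable def pz (k : ℤ) : ZG (RAAG ad) →+ ZG (RAAG ad) :=
  open Classical in
  { toFun := fun x => MonoidAlgebra.ofCoeff (x.coeff.filter (fun g => hgt ad g = k))
    map_zero' := by
      rw [MonoidAlgebra.coeff_zero, Finsupp.filter_zero]
      rfl
    map_add' := by
      intro x y
      rw [MonoidAlgebra.coeff_add, Finsupp.filter_add]
      rfl }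

theorem pz_coeff (k : ℤ) (x : ZG (RAAG ad)) (g : RAAG ad) [Decidable (hgt ad g = k)] :
    (pz ad k x).coeff g = if hgt ad g = k then x.coeff g else 0 := by
  classical
  change (x.coeff.filter (fun g => hgt ad g = k)) g = _
  rw [Finsupp.filter_apply]
  congr

theorem pz_eq (k : ℤ) (x : ZG (RAAG ad)) (g : RAAG ad) (h : hgt ad g = k) :
    (pz ad k x).coeff g = x.coeff g := by
  classical
  rw [pz_coeff, if_pos h]

theorem pz_ne (k : ℤ) (x : ZG (RAAG ad)) (g : RAAG ad) (h : hgt ad g ≠ k) :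
    (pz ad k x).coeff g = 0 := by
  classical
  rw [pz_coeff, if_neg h]

/-- right multiplication by a group element -/
noncomputable def rmg (g : RAAG ad) : ZG (RAAG ad) ≃+ ZG (RAAG ad) where
  toFun x := x * MonoidAlgebra.of ℤ (RAAG ad) g
  invFun x := x * MonoidAlgebra.of ℤ (RAAG ad) g⁻¹
  left_inv x := by
    change x * _ * _ = x
    rw [mul_assoc, ← map_mul, mul_inv_cancel, map_one, mul_one]
  right_inv x := by
    change x * _ * _ = x
    rw [mul_assoc, ← map_mul, inv_mul_cancel, map_one, mul_one]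
  map_add' x y := add_mul _ _ _

theorem rmg_apply (g : RAAG ad) (x : ZG (RAAG ad)) :
    rmg ad g x = x * MonoidAlgebra.of ℤ (RAAG ad) g := rfl

theorem rmg_coeff (g : RAAG ad) (x : ZG (RAAG ad)) (h : RAAG ad) :
    (rmg ad g x).coeff h = x.coeff (h * g⁻¹) := by
  rw [rmg_apply, MonoidAlgebra.of_apply, MonoidAlgebra.coeff_mul_single_apply, mul_one]

theorem pz_rmg (g : RAAG ad) (k : ℤ) (x : ZG (RAAG ad)) :
    pz ad k (rmg ad g x) = rmg ad g (pz ad (k - hgt ad g) x) := by
  ext h
  rw [rmg_coeff]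
  by_cases hk : hgt ad h = k
  · rw [pz_eq _ _ _ _ hk, pz_eq _ _ _ _ (by rw [hgt_mul, hgt_inv, hk]; ring), rmg_coeff]
  · rw [pz_ne _ _ _ _ hk, pz_ne]
    rw [hgt_mul, hgt_inv]
    intro h'
    exact hk (by linarith)

/-- The grading -/
theorem gr : Gr ad (pz ad) (fun v => rmg ad (gen ad v)) where
  pT v k x := by rw [pz_rmg, hgt_gen]
  pp k x := by
    ext g
    by_cases h : hgt ad g = k
    · rw [pz_eq _ _ _ _ h]
    · rw [pz_ne _ _ _ _ h, pz_ne _ _ _ _ h]
  pq k l x hkl := by
    ext g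
    by_cases h : hgt ad g = k
    · rw [pz_eq _ _ _ _ h, pz_ne _ _ _ _ (by rw [h]; exact hkl)]; rfl
    · rw [pz_ne _ _ _ _ h]; rfl
  fin x := by
    refine ⟨∑ g ∈ x.coeff.support, |hgt ad g|, fun k hk => ?_⟩
    ext g
    by_cases h : hgt ad g = k
    · rw [pz_eq _ _ _ _ h]
      by_contra hne
      have hg : g ∈ x.coeff.support := Finsupp.mem_support_iff.2 hne
      have h1 := Finset.single_le_sum (f := fun g => |hgt ad g|) (fun j _ => abs_nonneg _) hg
      have h2 := le_abs_self (hgt ad g)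
      have h3 := neg_abs_le (hgt ad g)
      rcases hk with hk | hk
      · linarith
      · linarith
    · rw [pz_ne _ _ _ _ h]; rfl
  ext x hx := by
    ext g
    rw [← pz_eq ad (hgt ad g) x g rfl, hx]
  comm a b hab x := by
    rw [rmg_apply, rmg_apply, rmg_apply, rmg_apply, mul_assoc, mul_assoc, of_comm ad hab]
  tf x hx := by
    ext g
    have h1 : x.coeff g = (-x).coeff g := congrArg (fun y => MonoidAlgebra.coeff y g) hx
    have h2 : (-x).coeff g = - x.coeff g := rfl
    rw [h2] at h1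
    have h3 : x.coeff g = 0 := by omega
    rw [h3]; rfl

theorem Rr_eq (v : V) : Rr (fun v => rmg ad (gen ad v)) v = Rg ad v := by
  refine AddMonoidHom.ext fun x => ?_
  change x * MonoidAlgebra.of ℤ (RAAG ad) (gen ad v) - x =
    x * (MonoidAlgebra.of ℤ (RAAG ad) (gen ad v) - 1)
  rw [mul_sub, mul_one]

/-! ### The module structure -/

/-- the inclusion of group rings -/
noncomputable def io : ZG (BB ad) →+* ZG (RAAG ad) :=
  MonoidAlgebra.mapDomainRingHom ℤ (BB ad).subtype

theorem io_single (g : BB ad) (n : ℤ) :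
    io ad (MonoidAlgebra.single g n) = MonoidAlgebra.single (g : RAAG ad) n := by
  change MonoidAlgebra.mapDomain _ _ = _
  rw [MonoidAlgebra.mapDomain_single]
  rfl

theorem io_inj : Function.Injective (io ad) :=
  MonoidAlgebra.mapDomain_injective (R := ℤ) (f := ((BB ad).subtype : BB ad → RAAG ad))
    Subtype.val_injective

theorem io_surj (x : ZG (RAAG ad)) (h : pz ad 0 x = x) : ∃ b, io ad b = x := by
  refine ⟨MonoidAlgebra.ofCoeff (x.coeff.comapDomain ((BB ad).subtype : BB ad → RAAG ad)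
    Subtype.val_injective.injOn), ?_⟩
  apply MonoidAlgebra.coeff_injective
  change Finsupp.mapDomain _ (Finsupp.comapDomain _ _ _) = x.coeff
  apply Finsupp.mapDomain_comapDomain _ Subtype.val_injective
  intro g hg
  have hg' : x.coeff g ≠ 0 := Finsupp.mem_support_iff.1 hg
  have : hgt ad g = 0 := by
    by_contra hne
    apply hg'
    rw [← h, pz_ne _ _ _ _ hne]
  exact ⟨⟨g, mem_BB ad this⟩, rfl⟩

/-- the group ring of the RAAG as a module over the group ring of the Bestvina-Brady group -/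
abbrev MA : Type := ZG (RAAG ad)

noncomputable instance modMA : Module (ZG (BB ad)) (ZG (RAAG ad)) :=
  Module.compHom (ZG (RAAG ad)) (io ad)

theorem smul_MA (a : ZG (BB ad)) (x : ZG (RAAG ad)) : a • x = io ad a * x := rfl

theorem pz_smul (k : ℤ) (a : ZG (BB ad)) (x : ZG (RAAG ad)) :
    pz ad k (io ad a * x) = io ad a * pz ad k x := by
  induction a using MonoidAlgebra.induction_linear with
  | zero => rw [map_zero, zero_mul, zero_mul, map_zero]
  | add a b ha hb => rw [map_add, add_mul, add_mul, map_add, ha, hb]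
  | single g n =>
    rw [io_single]
    ext h
    rw [MonoidAlgebra.coeff_single_mul_apply]
    by_cases hk : hgt ad h = k
    · rw [pz_eq _ _ _ _ hk, pz_eq _ _ _ _ (by rw [hgt_mul, hgt_inv, hgt_BB, hk]; ring),
        MonoidAlgebra.coeff_single_mul_apply]
    · rw [pz_ne _ _ _ _ hk, pz_ne, mul_zero]
      rw [hgt_mul, hgt_inv, hgt_BB]
      intro h'
      exact hk (by linarith)

/-- the projection to height `k`, linear -/
noncomputable def pl (k : ℤ) : MA ad →ₗ[ZG (BB ad)] MA ad where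
  toFun := pz ad k
  map_add' := (pz ad k).map_add'
  map_smul' a x := pz_smul ad k a x

/-- the chains with heights in `F` -/
def CF (F : Finset ℤ) : Submodule (ZG (BB ad)) (MA ad) where
  carrier := {x | ∀ k, k ∉ F → pz ad k x = 0}
  zero_mem' k _ := map_zero (pz ad k)
  add_mem' := by
    intro x y hx hy k hk
    have := map_add (pz ad k) x y
    rw [hx k hk, hy k hk, add_zero] at this
    exact this
  smul_mem' := by
    intro a x hx k hk
    have := pz_smul ad k a x
    rw [hx k hk, mul_zero] at this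
    exact this

theorem mem_CF {F : Finset ℤ} {x : MA ad} : x ∈ CF ad F ↔ ∀ k, k ∉ F → pz ad k x = 0 := Iff.rfl

/-- `x ↦ x (s_v - 1)`, linear -/
noncomputable def Rl (v : V) : MA ad →ₗ[ZG (BB ad)] MA ad where
  toFun := Rg ad v
  map_add' := (Rg ad v).map_add'
  map_smul' a x := by
    exact mul_assoc _ _ _

theorem Rl_mem {F F' : Finset ℤ} (h1 : ∀ k ∈ F, k ∈ F') (h2 : ∀ k ∈ F, k + 1 ∈ F')
    (hi : ∀ a, ¬ ad a a) (v : V) {x : MA ad} (hx : x ∈ CF ad F) : Rl ad v x ∈ CF ad F' := by
  intro k hk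
  change pz ad k (Rg ad v x) = 0
  rw [← Rr_eq, (gr ad).pR, hx k (fun h => hk (h1 k h)), sub_zero,
    hx (k - 1) (fun h => hk (by have := h2 _ h; rwa [sub_add_cancel] at this)), map_zero]

/-- the free generators -/
noncomputable def sg (o : V) (n : ℤ) : ZG (RAAG ad) := MonoidAlgebra.of ℤ (RAAG ad) (gen ad o ^ n)

theorem sg_mul (o : V) (n : ℤ) (x : ZG (RAAG ad)) : x * sg ad o n = rmg ad (gen ad o ^ n) x := rfl

theorem pz_io (k : ℤ) (a : ZG (BB ad)) (h : k ≠ 0) : pz ad k (io ad a) = 0 := by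
  have h1 := pz_smul ad k a 1
  rw [mul_one] at h1
  rw [h1]
  have : pz ad k (1 : ZG (RAAG ad)) = 0 := by
    classical
    ext g
    by_cases hg : hgt ad g = k
    · rw [pz_eq _ _ _ _ hg]
      have hg1 : g ≠ 1 := by
        rintro rfl
        apply h
        rw [← hg]
        unfold hgt
        rw [map_one]
        rfl
      rw [MonoidAlgebra.one_def, MonoidAlgebra.coeff_single, Finsupp.single_eq_of_ne hg1]
      rfl
    · rw [pz_ne _ _ _ _ hg]; rfl
  rw [this, mul_zero]

theorem pz_io_zero (a : ZG (BB ad)) (hi : ∀ a, ¬ ad a a) : pz ad 0 (io ad a) = io ad a := by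
  have g := gr ad
  have : io ad a - pz ad 0 (io ad a) = 0 := by
    apply g.ext
    intro k
    rw [map_sub]
    by_cases h : k = 0
    · rw [h, g.pp, sub_self]
    · rw [pz_io ad k a h, g.pq _ _ _ h, sub_zero]
  exact (sub_eq_zero.1 this).symm

theorem pz_io_sg (o : V) (hi : ∀ a, ¬ ad a a) (k n : ℤ) (a : ZG (BB ad)) :
    pz ad k (io ad a * sg ad o n) = if k = n then io ad a * sg ad o n else 0 := by
  rw [sg_mul, pz_rmg, hgt_zpow, hgt_gen, mul_one]
  by_cases h : k = n
  · rw [if_pos h, h, sub_self, pz_io_zero ad a hi]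
  · rw [if_neg h, pz_io ad _ _ (sub_ne_zero.2 h), map_zero]

/-- the map from the free module -/
noncomputable def Phi (o : V) (F : Finset ℤ) : (F → ZG (BB ad)) →ₗ[ZG (BB ad)] MA ad where
  toFun a := (∑ n : F, io ad (a n) * sg ad o n : ZG (RAAG ad))
  map_add' a b := by
    change (∑ n : F, io ad (a n + b n) * sg ad o n : ZG (RAAG ad)) =
      (∑ n : F, io ad (a n) * sg ad o n : ZG (RAAG ad)) + ∑ n : F, io ad (b n) * sg ad o n
    rw [← Finset.sum_add_distrib]
    refine Finset.sum_congr rfl fun n _ => ?_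
    rw [map_add, add_mul]
  map_smul' c a := by
    change (∑ n : F, io ad (c * a n) * sg ad o n : ZG (RAAG ad)) =
      io ad c * (∑ n : F, io ad (a n) * sg ad o n : ZG (RAAG ad))
    rw [Finset.mul_sum]
    refine Finset.sum_congr rfl fun n _ => ?_
    rw [map_mul, mul_assoc]

theorem pz_Phi (o : V) (hi : ∀ a, ¬ ad a a) (F : Finset ℤ) (a : F → ZG (BB ad)) (k : ℤ) :
    pz ad k (Phi ad o F a) = ∑ n : F, if k = n then io ad (a n) * sg ad o n else 0 := by
  change pz ad k (∑ n : F, io ad (a n) * sg ad o n : ZG (RAAG ad)) = _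
  rw [map_sum]
  exact Finset.sum_congr rfl fun n _ => pz_io_sg ad o hi k n (a n)

theorem Phi_mem (o : V) (hi : ∀ a, ¬ ad a a) (F : Finset ℤ) (a : F → ZG (BB ad)) :
    Phi ad o F a ∈ CF ad F := by
  intro k hk
  rw [pz_Phi ad o hi]
  refine Finset.sum_eq_zero fun n _ => if_neg ?_
  rintro rfl
  exact hk n.2

theorem Phi_inj (o : V) (hi : ∀ a, ¬ ad a a) (F : Finset ℤ) :
    Function.Injective (Phi ad o F) := by
  rw [← LinearMap.ker_eq_bot, LinearMap.ker_eq_bot']
  intro a ha
  ext1 n
  have h := pz_Phi ad o hi F a n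
  rw [ha] at h
  have h1 : pz ad (n : ℤ) (0 : ZG (RAAG ad)) = 0 := map_zero _
  have h2 : (∑ m : F, if (n : ℤ) = m then io ad (a m) * sg ad o m else 0) =
      io ad (a n) * sg ad o n := by
    rw [Finset.sum_eq_single n]
    · rw [if_pos rfl]
    · intro m _ hm
      exact if_neg (fun h => hm (Subtype.ext h.symm))
    · simp
  rw [h2] at h
  have h3 : io ad (a n) * sg ad o n = 0 := h.symm.trans h1
  rw [sg_mul] at h3
  have h4 : io ad (a n) = 0 := by
    have := (rmg ad (gen ad o ^ (n : ℤ))).injective (h3.trans (map_zero _).symm)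
    exact this
  exact io_inj ad (h4.trans (map_zero _).symm)

theorem Phi_surj (o : V) (hi : ∀ a, ¬ ad a a) (F : Finset ℤ) (x : MA ad) (hx : x ∈ CF ad F) :
    ∃ a, Phi ad o F a = x := by
  have g := gr ad
  have h1 : ∀ n : F, ∃ b, io ad b = rmg ad (gen ad o ^ (-(n : ℤ))) (pz ad n x) := by
    intro n
    apply io_surj
    rw [pz_rmg, hgt_zpow, hgt_gen, mul_one, zero_sub, neg_neg, g.pp]
  choose a ha using h1
  refine ⟨a, ?_⟩
  have h2 : ∀ n : F, io ad (a n) * sg ad o n = pz ad n x := by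
    intro n
    rw [ha, rmg_apply, sg, mul_assoc, ← map_mul, ← zpow_add, neg_add_cancel, zpow_zero, map_one,
      mul_one]
  have h3 : (Phi ad o F a - x : ZG (RAAG ad)) = 0 := by
    apply g.ext
    intro k
    rw [map_sub, pz_Phi ad o hi, sub_eq_zero]
    by_cases hk : k ∈ F
    · rw [Finset.sum_eq_single (⟨k, hk⟩ : F)]
      · rw [if_pos rfl, h2]
      · intro m _ hm
        exact if_neg (fun h => hm (Subtype.ext h.symm))
      · simp
    · rw [hx k hk]
      refine Finset.sum_eq_zero fun n _ => if_neg ?_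
      rintro rfl
      exact hk n.2
  exact sub_eq_zero.1 h3

/-- `CF F` is free of rank `#F` -/
noncomputable def eqv (o : V) (hi : ∀ a, ¬ ad a a) (F : Finset ℤ) :
    (F → ZG (BB ad)) ≃ₗ[ZG (BB ad)] CF ad F :=
  LinearEquiv.ofBijective ((Phi ad o F).codRestrict (CF ad F) (Phi_mem ad o hi F)) ⟨by
    intro a b h
    exact Phi_inj ad o hi F (congrArg Subtype.val h), by
    rintro ⟨x, hx⟩
    obtain ⟨a, ha⟩ := Phi_surj ad o hi F x hx
    exact ⟨a, Subtype.ext ha⟩⟩

theorem free_CF (o : V) (hi : ∀ a, ¬ ad a a) (F : Finset ℤ) :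
    Module.Free (ZG (BB ad)) (CF ad F) := Module.Free.of_equiv (eqv ad o hi F)

theorem fin_CF (o : V) (hi : ∀ a, ¬ ad a a) (F : Finset ℤ) :
    Module.Finite (ZG (BB ad)) (CF ad F) := Module.Finite.equiv (eqv ad o hi F)

end

end Pool.Agent.N348.HC
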