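import Pool.Agent.W490.DU.Grp
import Pool.Agent.W304.DU.RG
import Pool.Agent.W304.DU.EX
import Pool.Agent.W326.DU.Sub
import Pool.Agent.W326.DU.Aug
import Pool.Agent.W571.DU.BC
import Pool.Agent.Y448.HC.Aug
import Pool.Agent.N271.HC.Stm

/-!
# Regularity of the generators of a right-angled Artin group (HC/FP3)
-/

set_option autoImplicit false

namespace Pool.Agent.N348.HC

open Pool.Agent.W326.DU Pool.Agent.Y66.HC

/-- right multiplication by `s_v - 1` -/
noncomputable def Rg {V : Type} (ad : V → V → Prop) (v : V) : ZG (RAAG ad) →+ ZG (RAAG ad) :=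
  rm ℤ (MonoidAlgebra.of ℤ (RAAG ad) (gen ad v) - 1)

theorem mem_Im_iff {V : Type} (ad : V → V → Prop) (S : Set V) (x : ZG (RAAG ad)) :
    x ∈ Im (Rg ad) S ↔ x ∈ IL ℤ (gen ad '' S) := by
  constructor
  · intro h
    have hle : Im (Rg ad) S ≤ (IL ℤ (gen ad '' S)).toAddSubgroup := by
      refine iSup_le fun v => iSup_le fun hv => ?_
      rintro _ ⟨z, rfl⟩
      change z * (MonoidAlgebra.of ℤ (RAAG ad) (gen ad v) - 1) ∈ IL ℤ (gen ad '' S)
      exact Submodule.smul_mem _ z (Submodule.subset_span ⟨gen ad v, ⟨v, hv, rfl⟩, rfl⟩)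
    exact hle h
  · intro h
    refine Submodule.span_induction (p := fun x _ => x ∈ Im (Rg ad) S) ?_ ?_ ?_ ?_ h
    · rintro _ ⟨_, ⟨v, hv, rfl⟩, rfl⟩
      refine (le_iSup_of_le v (le_iSup_of_le hv le_rfl) :
        (Rg ad v).range ≤ Im (Rg ad) S) ⟨1, ?_⟩
      change 1 * (MonoidAlgebra.of ℤ (RAAG ad) (gen ad v) - 1) = _
      rw [one_mul]
    · exact zero_mem _
    · intro x y _ _ hx hy
      exact add_mem hx hy
    · intro a x _ hx
      have hle : (Im (Rg ad) S).map (AddMonoidHom.mulLeft a) ≤ Im (Rg ad) S := by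
        unfold Im
        rw [AddSubgroup.map_iSup]
        refine iSup_le fun v => ?_
        rw [AddSubgroup.map_iSup]
        refine iSup_le fun hv => ?_
        refine le_trans ?_ (le_iSup_of_le v (le_iSup_of_le hv le_rfl))
        rintro _ ⟨_, ⟨z, rfl⟩, rfl⟩
        refine ⟨a * z, ?_⟩
        change (a * z) * (MonoidAlgebra.of ℤ (RAAG ad) (gen ad v) - 1)
          = a * (z * (MonoidAlgebra.of ℤ (RAAG ad) (gen ad v) - 1))
        rw [mul_assoc]
      exact hle ⟨x, hx, rfl⟩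

theorem of_comm {V : Type} (ad : V → V → Prop) {a b : V} (h : ad a b) :
    MonoidAlgebra.of ℤ (RAAG ad) (gen ad b) * MonoidAlgebra.of ℤ (RAAG ad) (gen ad a)
      = MonoidAlgebra.of ℤ (RAAG ad) (gen ad a) * MonoidAlgebra.of ℤ (RAAG ad) (gen ad b) := by
  rw [← map_mul, ← map_mul, Pool.Agent.W490.DU.gen_comm ad h]

theorem reg {V : Type} (ad : V → V → Prop) (hs : ∀ a b, ad a b → ad b a) (hi : ∀ a, ¬ ad a a) :
    Reg ad (Rg ad) := by
  constructor
  · intro a b hab x
    change x * (MonoidAlgebra.of ℤ _ (gen ad b) - 1) * (MonoidAlgebra.of ℤ _ (gen ad a) - 1)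
        = x * (MonoidAlgebra.of ℤ _ (gen ad a) - 1) * (MonoidAlgebra.of ℤ _ (gen ad b) - 1)
    rw [mul_assoc, mul_assoc, Pool.Agent.W490.DU.comm_sub_one (of_comm ad hab)]
  · intro S v hv x hx
    rw [mem_Im_iff] at hx ⊢
    let W' : Type := {w : V // w ∈ S ∨ w = v}
    let ad' : W' → W' → Prop := fun a b => ad a.1 b.1
    obtain ⟨F, hF, hFi⟩ := Pool.Agent.W326.DU.sub_th V W' ad ad' (fun w => w.1)
      Subtype.val_injective (fun a b => Iff.rfl)
    let v' : W' := ⟨v, Or.inr rfl⟩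
    have hst := Pool.Agent.W571.DU.BC.th ℤ (RAAG ad') (RAAG ad) F hFi _ _ _
      (Pool.Agent.W304.DU.RG.th ℤ W' ad' (fun a b h => hs _ _ h) (fun a h => hi _ h) v')
    have e1 : F '' (gen ad' '' {w | w ≠ v'}) = gen ad '' S := by
      ext g
      constructor
      · rintro ⟨_, ⟨w, hw, rfl⟩, rfl⟩
        refine ⟨w.1, ?_, (hF w).symm⟩
        rcases w.2 with h | h
        · exact h
        · exact absurd (Subtype.ext h) hw
      · rintro ⟨w, hw, rfl⟩
        refine ⟨_, ⟨⟨w, Or.inl hw⟩, ?_, rfl⟩, hF _⟩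
        intro h
        have : w = v := congrArg Subtype.val h
        exact hv (this ▸ hw)
    have e2 : F '' (gen ad' '' {w | ad' w v'}) = gen ad '' {w | w ∈ S ∧ ad w v} := by
      ext g
      constructor
      · rintro ⟨_, ⟨w, hw, rfl⟩, rfl⟩
        have hw' : ad w.1 v := hw
        refine ⟨w.1, ⟨?_, hw'⟩, (hF w).symm⟩
        rcases w.2 with h | h
        · exact h
        · rw [h] at hw'
          exact absurd hw' (hi v)
      · rintro ⟨w, ⟨hw, hwv⟩, rfl⟩
        exact ⟨_, ⟨⟨w, Or.inl hw⟩, hwv, rfl⟩, hF _⟩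
    rw [e1, e2, hF] at hst
    exact hst x hx

end Pool.Agent.N348.HC
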